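import Mathlib
/-! ## PV-I2 central extension and the extension step (MP_c0bc55_al, S02951; plan wp4_2), abstract form.
theta is a function on F, multiplicative and conjugation invariant on ker pi, with values in an abelian group A of
exponent d.  E = (F x A) / (n, theta(n) inverse).  If the subgroup generated by the classes of (x^d, mu(x) inverse),
x a lift of a cone generator, maps injectively to G, then theta extends to the preimage of NN. -/
namespace Pool.Agent.helper42.PV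

section
variable {F G A C : Type} [Group F] [Group G] [CommGroup A]

/-- the normal subgroup of F x A -/
def Gam (π : F →* G) (θ : F → A) (hθ : ∀ x ∈ π.ker, ∀ y ∈ π.ker, θ (x * y) = θ x * θ y) :
    Subgroup (F × A) where
  carrier := {p | p.1 ∈ π.ker ∧ p.2 = (θ p.1)⁻¹}
  one_mem' := by
    refine ⟨one_mem _, ?_⟩
    have h := hθ 1 (one_mem _) 1 (one_mem _)
    rw [mul_one] at h
    have h1 : θ (1 : F) = 1 := by
      have h2 : θ (1 : F) * 1 = θ 1 * θ 1 := by rw [mul_one]; exact h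
      exact (mul_left_cancel h2).symm
    show (1 : A) = (θ (1 : F))⁻¹
    rw [h1, inv_one]
  mul_mem' := by
    rintro ⟨x, a⟩ ⟨y, b⟩ ⟨hx, ha⟩ ⟨hy, hb⟩
    simp only at hx ha hy hb
    refine ⟨mul_mem hx hy, ?_⟩
    show a * b = (θ (x * y))⁻¹
    rw [hθ x hx y hy, ha, hb, mul_inv]
  inv_mem' := by
    rintro ⟨x, a⟩ ⟨hx, ha⟩
    simp only at hx ha
    refine ⟨inv_mem hx, ?_⟩
    show a⁻¹ = (θ x⁻¹)⁻¹
    have h := hθ x hx x⁻¹ (inv_mem hx)
    rw [mul_inv_cancel] at h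
    have h0 := hθ 1 (one_mem _) 1 (one_mem _)
    rw [mul_one] at h0
    have h1 : θ (1 : F) = 1 := by
      have h2 : θ (1 : F) * 1 = θ 1 * θ 1 := by rw [mul_one]; exact h0
      exact (mul_left_cancel h2).symm
    rw [h1] at h
    rw [ha, inv_inv]
    exact eq_inv_of_mul_eq_one_left h.symm

theorem exists_ext (π : F →* G) (θ : F → A) (hθ : ∀ x ∈ π.ker, ∀ y ∈ π.ker, θ (x * y) = θ x * θ y)
    (hθc : ∀ f, ∀ x ∈ π.ker, θ (f * x * f⁻¹) = θ x) :
    ∃ (E : Type) (_ : Group E) (ρ : E →* G) (t : F × A →* E), Function.Surjective t ∧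
      (∀ p, ρ (t p) = π p.1) ∧ ∀ p, t p = 1 ↔ p.1 ∈ π.ker ∧ p.2 = (θ p.1)⁻¹ := by
  have hN : (Gam π θ hθ).Normal := by
    refine ⟨?_⟩
    rintro ⟨n, b⟩ ⟨hn, hb⟩ ⟨f, a⟩
    simp only at hn hb
    refine ⟨?_, ?_⟩
    · show π (f * n * f⁻¹) = 1
      rw [map_mul, map_mul, MonoidHom.mem_ker.1 hn, mul_one, map_inv, mul_inv_cancel]
    · show a * b * a⁻¹ = (θ (f * n * f⁻¹))⁻¹
      rw [hθc f n hn, hb, mul_comm a, mul_inv_cancel_right]
  refine ⟨(F × A) ⧸ Gam π θ hθ, inferInstance,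
    QuotientGroup.lift (Gam π θ hθ) (π.comp (MonoidHom.fst F A)) ?_, QuotientGroup.mk' _,
    QuotientGroup.mk'_surjective _, fun p => rfl, fun p => ?_⟩
  · rintro ⟨x, a⟩ ⟨hx, -⟩
    exact hx
  · rw [← MonoidHom.mem_ker, QuotientGroup.ker_mk']
    exact Iff.rfl

variable [MulAction G C]

/-- the extension step -/
theorem ext_step {d : ℕ} (hA : ∀ a : A, a ^ d = 1) (π : F →* G) (hπ : Function.Surjective π)
    (gen : C → G) (hgen : ∀ (g : G) (c : C), gen (g • c) = g * gen c * g⁻¹)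
    (IP : ∀ (E : Type) [Group E] (ρ : E →* G) (v : C → E), (∀ c, ρ (v c) = gen c ^ d) →
      (∀ (w : E) (c : C), v (ρ w • c) = w * v c * w⁻¹) →
      ∀ N ∈ Subgroup.closure (Set.range v), ρ N = 1 → N = 1)
    (θ : F → A) (hθ : ∀ x ∈ π.ker, ∀ y ∈ π.ker, θ (x * y) = θ x * θ y)
    (hθc : ∀ f, ∀ x ∈ π.ker, θ (f * x * f⁻¹) = θ x)
    (μ : F → A) (hμ1 : ∀ f x, μ (f * x * f⁻¹) = μ x) (hμ2 : ∀ x, ∀ n ∈ π.ker, μ (x * n) = μ x) :
    ∃ θ' : F → A,
      (∀ x y, π x ∈ Subgroup.closure {g | ∃ c, g = gen c ^ d} →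
        π y ∈ Subgroup.closure {g | ∃ c, g = gen c ^ d} → θ' (x * y) = θ' x * θ' y) ∧
      (∀ f x, π x ∈ Subgroup.closure {g | ∃ c, g = gen c ^ d} → θ' (f * x * f⁻¹) = θ' x) ∧
      (∀ x ∈ π.ker, θ' x = θ x) ∧ ∀ x c, π x = gen c → θ' (x ^ d) = μ x := by
  classical
  obtain ⟨E, iE, ρ, t, ht, hρt, htk⟩ := exists_ext π θ hθ hθc
  have hθ1 : θ (1 : F) = 1 := by
    have h := hθ 1 (one_mem _) 1 (one_mem _)
    rw [mul_one] at h
    have h2 : θ (1 : F) * 1 = θ 1 * θ 1 := by rw [mul_one]; exact h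
    exact (mul_left_cancel h2).symm
  -- changing the lift
  have hsh : ∀ (x n : F) (a : A), n ∈ π.ker → t (x * n, a) = t (x, θ n * a) := by
    intro x n a hn
    have h1 : t ((x, θ n * a)⁻¹ * (x * n, a)) = 1 := by
      rw [htk]
      refine ⟨?_, ?_⟩
      · show x⁻¹ * (x * n) ∈ π.ker
        rwa [inv_mul_cancel_left]
      · show (θ n * a)⁻¹ * a = (θ (x⁻¹ * (x * n)))⁻¹
        rw [inv_mul_cancel_left, mul_inv, inv_mul_cancel_right]
    rw [map_mul, map_inv, inv_mul_eq_one] at h1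
    exact h1.symm
  set V : F → E := fun x => t (x ^ d, (μ x)⁻¹) with hV
  have hV1 : ∀ x, ∀ n ∈ π.ker, V (x * n) = V x := by
    intro x n hn
    show t ((x * n) ^ d, (μ (x * n))⁻¹) = t (x ^ d, (μ x)⁻¹)
    have h1 : t ((x * n) ^ d, 1) = t (x ^ d, 1) := by
      have h2 : ((x * n) ^ d, (1 : A)) = (x * n, 1) ^ d := by
        rw [Prod.pow_mk, one_pow]
      rw [h2, map_pow, hsh x n 1 hn, ← map_pow, Prod.pow_mk, hA]
    have h3 : ∀ y : F, ∀ b : A, t (y, b) = t (y, 1) * t (1, b) := by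
      intro y b
      rw [← map_mul, Prod.mk_mul_mk, mul_one, one_mul]
    rw [h3 ((x * n) ^ d), h1, hμ2 x n hn, ← h3]
  have hV2 : ∀ x y, π x = π y → V x = V y := by
    intro x y hxy
    have h1 : x⁻¹ * y ∈ π.ker := by
      rw [MonoidHom.mem_ker, map_mul, map_inv, hxy, inv_mul_cancel]
    have h2 := hV1 x _ h1
    rw [mul_inv_cancel_left] at h2
    exact h2.symm
  have hV3 : ∀ (p : F × A) (x : F), t p * V x * (t p)⁻¹ = V (p.1 * x * p.1⁻¹) := by
    rintro ⟨f, a⟩ x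
    show t (f, a) * t (x ^ d, (μ x)⁻¹) * (t (f, a))⁻¹ = t ((f * x * f⁻¹) ^ d, (μ (f * x * f⁻¹))⁻¹)
    rw [hμ1, conj_pow, ← map_inv, ← map_mul, ← map_mul]
    congr 1
    show (f * x ^ d * f⁻¹, a * (μ x)⁻¹ * a⁻¹) = (f * x ^ d * f⁻¹, (μ x)⁻¹)
    rw [mul_comm a, mul_inv_cancel_right]
  have hV4 : ∀ x, ρ (V x) = π x ^ d := by
    intro x
    rw [hV, hρt, map_pow]
  obtain ⟨s, hs⟩ := hπ.hasRightInverse
  set v : C → E := fun c => V (s (gen c)) with hvdef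
  have hv : ∀ c, ρ (v c) = gen c ^ d := by
    intro c
    show ρ (V (s (gen c))) = gen c ^ d
    rw [hV4, hs]
  have hve : ∀ (w : E) (c : C), v (ρ w • c) = w * v c * w⁻¹ := by
    intro w c
    obtain ⟨p, rfl⟩ := ht w
    show V (s (gen (ρ (t p) • c))) = t p * V (s (gen c)) * (t p)⁻¹
    rw [hV3]
    apply hV2
    rw [hs, hρt, hgen, map_mul, map_mul, map_inv, hs]
  have hIP := IP E ρ v hv hve
  set Nt : Subgroup E := Subgroup.closure (Set.range v) with hNt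
  have hmap : Nt.map ρ = Subgroup.closure {g | ∃ c, g = gen c ^ d} := by
    rw [hNt, MonoidHom.map_closure]
    congr 1
    ext g
    constructor
    · rintro ⟨_, ⟨c, rfl⟩, rfl⟩
      exact ⟨c, hv c⟩
    · rintro ⟨c, rfl⟩
      exact ⟨v c, ⟨c, rfl⟩, hv c⟩
  have hconj : ∀ w : E, ∀ N ∈ Nt, w * N * w⁻¹ ∈ Nt := by
    intro w N hN
    have h1 : Nt ≤ Nt.comap (MulAut.conj w).toMonoidHom := by
      conv_lhs => rw [hNt]
      rw [Subgroup.closure_le]
      rintro _ ⟨c, rfl⟩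
      show w * v c * w⁻¹ ∈ Nt
      rw [← hve w c]
      exact Subgroup.subset_closure ⟨_, rfl⟩
    exact h1 hN
  have hex : ∀ x, π x ∈ Subgroup.closure {g | ∃ c, g = gen c ^ d} → ∃ a, t (x, a) ∈ Nt := by
    intro x hx
    rw [← hmap] at hx
    obtain ⟨N, hN, hNx⟩ := hx
    obtain ⟨⟨y, b⟩, rfl⟩ := ht N
    rw [hρt] at hNx
    have h1 : x⁻¹ * y ∈ π.ker := by
      rw [MonoidHom.mem_ker, map_mul, map_inv, ← hNx]
      exact inv_mul_cancel _
    have h2 := hsh x (x⁻¹ * y) b h1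
    rw [mul_inv_cancel_left] at h2
    exact ⟨_, h2 ▸ hN⟩
  have hun : ∀ x a b, t (x, a) ∈ Nt → t (x, b) ∈ Nt → a = b := by
    intro x a b ha hb
    have h1 : t (1, a⁻¹ * b) ∈ Nt := by
      have h2 := mul_mem (inv_mem ha) hb
      rw [← map_inv, ← map_mul] at h2
      have h3 : (x, a)⁻¹ * (x, b) = (1, a⁻¹ * b) := by
        show (x⁻¹ * x, a⁻¹ * b) = (1, a⁻¹ * b)
        rw [inv_mul_cancel]
      rwa [h3] at h2
    have h2 := hIP _ h1 (by rw [hρt]; exact map_one π)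
    rw [htk] at h2
    have h3 := h2.2
    simp only [hθ1, inv_one] at h3
    exact (inv_mul_eq_one.1 h3)
  set θ' : F → A := fun x => if h : ∃ a, t (x, a) ∈ Nt then (Classical.choose h)⁻¹ else 1 with hθ'
  have hkey : ∀ x a, t (x, a) ∈ Nt → θ' x = a⁻¹ := by
    intro x a ha
    have h : ∃ a, t (x, a) ∈ Nt := ⟨a, ha⟩
    show (if h : ∃ a, t (x, a) ∈ Nt then (Classical.choose h)⁻¹ else 1) = a⁻¹
    rw [dif_pos h, hun x _ _ (Classical.choose_spec h) ha]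
  refine ⟨θ', ?_, ?_, ?_, ?_⟩
  · intro x y hx hy
    obtain ⟨a, ha⟩ := hex x hx
    obtain ⟨b, hb⟩ := hex y hy
    have h1 : t (x * y, a * b) ∈ Nt := by
      have := mul_mem ha hb
      rwa [← map_mul, Prod.mk_mul_mk] at this
    rw [hkey x a ha, hkey y b hb, hkey _ _ h1, mul_inv]
  · intro f x hx
    obtain ⟨a, ha⟩ := hex x hx
    have h1 : t (f * x * f⁻¹, a) ∈ Nt := by
      have := hconj (t (f, 1)) _ ha
      rw [← map_inv, ← map_mul, ← map_mul] at this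
      have h2 : (f, (1 : A)) * (x, a) * (f, 1)⁻¹ = (f * x * f⁻¹, a) := by
        show (f * x * f⁻¹, 1 * a * 1⁻¹) = (f * x * f⁻¹, a)
        rw [inv_one, mul_one, one_mul]
      rwa [h2] at this
    rw [hkey x a ha, hkey _ _ h1]
  · intro x hx
    have h1 : t (x, (θ x)⁻¹) = 1 := (htk _).2 ⟨hx, rfl⟩
    have h2 : t (x, (θ x)⁻¹) ∈ Nt := by rw [h1]; exact one_mem _
    rw [hkey _ _ h2, inv_inv]
  · intro x c hc
    have h1 : V x = v c := hV2 _ _ (by rw [hs, hc])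
    have h2 : t (x ^ d, (μ x)⁻¹) ∈ Nt := by
      show V x ∈ Nt
      rw [h1]
      exact Subgroup.subset_closure ⟨c, rfl⟩
    rw [hkey _ _ h2, inv_inv]

end

end Pool.Agent.helper42.PV
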