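import Pool.Agent.helper42.PV.I1
import Pool.Agent.helper42.PV.I2
import Pool.Agent.helper50.BW.Q10
import Pool.Agent.helper50.BW.T6
import Pool.Agent.helper4.PV.Defs
/-! ## PV-I3 independence of the d-th powers (MP_c0bc55_al, S02951; plan wp4_2): induction over the tower,
ind_main : for all large odd d, Ind d. -/
namespace Pool.Agent.helper42.PV
open Pool.Agent.helper50.BW Pool.Agent.helper4.PV

/-- admissible values on the kernel of one level -/
structure Good {d : ℕ} {A : Type} [CommGroup A] (L : Lvl d) (m θ : FreeGroup ℕ → A) : Prop where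
  mul : ∀ x ∈ L.π.ker, ∀ y ∈ L.π.ker, θ (x * y) = θ x * θ y
  conj : ∀ f, ∀ x ∈ L.π.ker, θ (f * x * f⁻¹) = θ x
  val : ∀ x, x ^ d ∈ L.π.ker → θ (x ^ d) = m x

/-- admissible values for the test function -/
structure Adm' (d : ℕ) {A : Type} [CommGroup A] (m : FreeGroup ℕ → A) : Prop where
  exp : ∀ a : A, a ^ d = 1
  conj : ∀ f x, m (f * x * f⁻¹) = m x
  mod : ∀ x y, x⁻¹ * y ∈ Fd d → m x = m y
  pow : ∀ x (k : ℕ), m (x ^ k) = m x ^ k

theorem zpow_red {H : Type} [Group H] {h : H} {d : ℕ} (hd : 0 < d) (hh : h ^ d = 1) (k : ℤ) :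
    h ^ k = h ^ (k % (d : ℤ)).toNat := by
  have h1 : (0 : ℤ) ≤ k % (d : ℤ) := Int.emod_nonneg k (by exact_mod_cast hd.ne')
  rw [← zpow_natCast h (k % (d : ℤ)).toNat, Int.toNat_of_nonneg h1]
  conv_lhs => rw [← Int.emod_add_mul_ediv k (d : ℤ)]
  rw [zpow_add, zpow_mul, zpow_natCast, hh, one_zpow, mul_one]

theorem Adm'.zpow {d : ℕ} {A : Type} [CommGroup A] {m : FreeGroup ℕ → A} (hm : Adm' d m) (hd : 0 < d)
    (x : FreeGroup ℕ) (k : ℤ) : m (x ^ k) = m x ^ k := by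
  rw [zpow_red hd (hm.exp (m x)) k, ← hm.pow]
  apply hm.mod
  have h1 : (0 : ℤ) ≤ k % (d : ℤ) := Int.emod_nonneg k (by exact_mod_cast hd.ne')
  have h2 : (x ^ k)⁻¹ * x ^ (k % (d : ℤ)).toNat = (x ^ (-(k / (d : ℤ)))) ^ d := by
    rw [← zpow_natCast x (k % (d : ℤ)).toNat, Int.toNat_of_nonneg h1, ← zpow_neg, ← zpow_add,
      ← zpow_natCast, ← zpow_mul]
    congr 1
    have h3 := Int.emod_add_mul_ediv k (d : ℤ)
    linarith [mul_comm (d : ℤ) (k / (d : ℤ)), neg_mul (k / (d : ℤ)) (d : ℤ)]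
  rw [h2]
  exact Subgroup.subset_closure ⟨_, rfl⟩

/-- powers of a product with a kernel element -/
theorem pow_mod {F G A : Type} [Group F] [Group G] [CommGroup A] (P : Subgroup F) (hP : P.Normal)
    (θ : F → A) (h1 : θ 1 = 1) (hθ : ∀ x ∈ P, ∀ y ∈ P, θ (x * y) = θ x * θ y)
    (hθc : ∀ f, ∀ x ∈ P, θ (f * x * f⁻¹) = θ x) {n : F} (hn : n ∈ P) (x : F) (k : ℕ) :
    ∃ m ∈ P, (n * x) ^ k = m * x ^ k ∧ θ m = θ n ^ k := by
  induction k with
  | zero => exact ⟨1, one_mem _, by simp, by simp [h1]⟩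
  | succ k ih =>
    obtain ⟨m, hm, e, ht⟩ := ih
    have hxm : x * m * x⁻¹ ∈ P := hP.conj_mem m hm x
    refine ⟨n * (x * m * x⁻¹), mul_mem hn hxm, ?_, ?_⟩
    · rw [pow_succ', e, pow_succ']
      group
    · rw [hθ n hn _ hxm, hθc x m hm, ht, pow_succ']

theorem next_good {d : ℕ} (hd : 0 < d) {A : Type} [CommGroup A] {L L' : Lvl d} (hn : IsNext L L')
    (hLF : L'.π.ker ≤ Fd d) {m θ : FreeGroup ℕ → A} (hm : Adm' d m) (hg : Good L m θ) :
    ∃ θ' : FreeGroup ℕ → A, Good L' m θ' ∧ ∀ x ∈ L.π.ker, θ' x = θ x := by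
  obtain ⟨C, iC, S, U, q, hF, hker, hq, hπ, hD⟩ := hn
  have hC := hF.ctx
  have hpi : ∀ x, L'.π x = q (L.π x) := fun x => by rw [hπ]; rfl
  have hkl : L.π.ker ≤ L'.π.ker := by
    intro x hx
    rw [MonoidHom.mem_ker] at hx ⊢
    rw [hpi, hx, map_one]
  have hkk : ∀ x, x ∈ L'.π.ker ↔ L.π x ∈ NN S d := by
    intro x
    rw [MonoidHom.mem_ker, hpi, ← MonoidHom.mem_ker, hker]
  have hmk : ∀ x, ∀ n ∈ L'.π.ker, m (x * n) = m x := by
    intro x n hn
    apply hm.mod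
    have h1 : (x * n)⁻¹ * x = n⁻¹ * (x⁻¹ * x) := by group
    rw [h1, inv_mul_cancel, mul_one]
    exact inv_mem (hLF hn)
  have hmk' : ∀ x, ∀ n ∈ L'.π.ker, m (n * x) = m x := by
    intro x n hn
    have h1 : n * x = x * (x⁻¹ * n * x⁻¹⁻¹) := by group
    rw [h1]
    apply hmk
    exact (inferInstance : L'.π.ker.Normal).conj_mem n hn x⁻¹
  have IP : ∀ (E : Type) [Group E] (ρ : E →* L.G) (v : C → E), (∀ c, ρ (v c) = S.gen c ^ d) →
      (∀ (w : E) (c : C), v (ρ w • c) = w * v c * w⁻¹) →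
      ∀ N ∈ Subgroup.closure (Set.range v), ρ N = 1 → N = 1 := by
    intro E iE ρ v hv hve N hN hN1
    have h1 := hC.hK
    have h2 := hC.hΔ
    have h3 := hC.hu
    have h4 := hC.h1
    have h5 := hC.hs
    have h6 := hC.h0
    have h7 := hC.big
    exact inj_of_red ρ v hv hve hC.hyp hC.linv hC.proj (by linarith) hC.hu hC.h1 (by linarith) hN hN1
  obtain ⟨θ', t1, t2, t3, t4⟩ := ext_step (d := d) hm.exp L.π L.surj S.gen S.gen_smul IP θ hg.mul hg.conj
    m hm.conj (fun x n hn => hmk x n (hkl hn))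
  have T1 : ∀ x ∈ L'.π.ker, ∀ y ∈ L'.π.ker, θ' (x * y) = θ' x * θ' y := fun x hx y hy =>
    t1 x y ((hkk x).1 hx) ((hkk y).1 hy)
  have T2 : ∀ f, ∀ x ∈ L'.π.ker, θ' (f * x * f⁻¹) = θ' x := fun f x hx => t2 f x ((hkk x).1 hx)
  have h1 : θ' 1 = 1 := by
    have h := T1 1 (one_mem _) 1 (one_mem _)
    rw [mul_one] at h
    have h2 : θ' 1 * 1 = θ' 1 * θ' 1 := by rw [mul_one]; exact h
    exact (mul_left_cancel h2).symm
  refine ⟨θ', ⟨T1, T2, ?_⟩, t3⟩
  intro x hx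
  have hgd : L.π x ^ d ∈ NN S d := by
    rw [← map_pow]
    exact (hkk _).1 hx
  -- changing x by an element of the kernel does not change anything
  have hch : ∀ n ∈ L'.π.ker, ∀ y, y ^ d ∈ L'.π.ker → θ' ((n * y) ^ d) = θ' (y ^ d) := by
    intro n hn y hy
    obtain ⟨k, hk, e, ht⟩ := pow_mod (G := L.G) L'.π.ker inferInstance θ' h1 T1 T2 hn y d
    rw [e, T1 k hk _ hy, ht, hm.exp, one_mul]
  obtain ⟨n, hn, hcase⟩ := classify_tor hF hgd
  obtain ⟨nt, rfl⟩ := L.surj n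
  have hnt : nt ∈ L'.π.ker := (hkk nt).2 hn
  rw [← hch nt hnt x hx, ← hmk' x nt hnt]
  rcases hcase with h2 | ⟨c, hc⟩
  · have h3 : (nt * x) ^ d ∈ L.π.ker := by
      rw [MonoidHom.mem_ker, map_pow, map_mul]
      exact h2
    rw [t3 _ h3]
    exact hg.val _ h3
  · obtain ⟨k, hk⟩ := Subgroup.mem_zpowers_iff.1 hc
    obtain ⟨z, hz⟩ := L.surj (S.gen c)
    have hzd : z ^ d ∈ L'.π.ker := by
      rw [hkk, map_pow, hz]
      exact Subgroup.subset_closure ⟨c, rfl⟩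
    have h4 : nt * x * (z ^ k)⁻¹ ∈ L.π.ker := by
      rw [MonoidHom.mem_ker, map_mul, map_mul, map_inv, map_zpow, hz, hk, mul_inv_cancel]
    have h5 : nt * x = (nt * x * (z ^ k)⁻¹) * z ^ k := by group
    have h6 : (z ^ k) ^ d = (z ^ d) ^ k := by
      rw [← zpow_natCast, ← zpow_natCast, ← zpow_mul, ← zpow_mul, mul_comm]
    have h7 : (z ^ k) ^ d ∈ L'.π.ker := by
      rw [h6]
      exact Subgroup.zpow_mem _ hzd k
    rw [h5, hch _ (hkl h4) _ h7, hmk' _ _ (hkl h4), hm.zpow hd, h6]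
    -- theta' on powers of z ^ d
    let φ : L'.π.ker →* A :=
      { toFun := fun x => θ' x
        map_one' := h1
        map_mul' := fun x y => T1 x x.2 y y.2 }
    have h8 := map_zpow φ (⟨z ^ d, hzd⟩ : L'.π.ker) k
    have h9 : φ (⟨z ^ d, hzd⟩ : L'.π.ker) = m z := t4 z c hz
    rw [h9] at h8
    exact h8

theorem ind_of_odd {d : ℕ} (hd : Odd d) (hbig : 10000 * ck0 ≤ d * ctau) : Ind d := by
  intro μ hμc hμp
  obtain ⟨L, h0, h0D, hn⟩ := tower hd hbig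
  set m : FreeGroup ℕ → Multiplicative (ZMod d) :=
    fun x => Multiplicative.ofAdd (μ (QuotientGroup.mk x)) with hmdef
  have hdpos := hd.pos
  have : NeZero d := ⟨hdpos.ne'⟩
  have hm : Adm' d m := by
    refine ⟨?_, ?_, ?_, ?_⟩
    · intro a
      show Multiplicative.ofAdd (d • Multiplicative.toAdd a) = 1
      rw [nsmul_eq_mul, ZMod.natCast_self, zero_mul, ofAdd_zero]
    · intro f x
      show Multiplicative.ofAdd (μ _) = Multiplicative.ofAdd (μ _)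
      congr 1
      exact hμc (QuotientGroup.mk f) (QuotientGroup.mk x)
    · intro x y hxy
      show Multiplicative.ofAdd (μ _) = Multiplicative.ofAdd (μ _)
      congr 2
      exact QuotientGroup.eq.2 hxy
    · intro x k
      show Multiplicative.ofAdd (μ _) = Multiplicative.ofAdd (k • μ _)
      congr 1
      rw [nsmul_eq_mul]
      exact hμp (QuotientGroup.mk x) k
  have hm1 : m 1 = 1 := by
    have h1 := hm.pow 1 0
    rwa [pow_zero, pow_zero] at h1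
  have hker := tower_ker h0 hn
  -- the sequence
  have hbase : Good (L 0) m (fun _ => 1) := by
    refine ⟨fun _ _ _ _ => (mul_one _).symm, fun _ _ _ => rfl, fun x hx => ?_⟩
    have h1 : x ^ d = 1 := by
      rw [(MonoidHom.ker_eq_bot_iff _).2 h0] at hx
      exact hx
    rw [free_tor hdpos h1, hm1]
  have hstep : ∀ j (θ : {θ : FreeGroup ℕ → Multiplicative (ZMod d) // Good (L j) m θ}),
      ∃ θ' : {θ : FreeGroup ℕ → Multiplicative (ZMod d) // Good (L (j + 1)) m θ},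
        ∀ x ∈ (L j).π.ker, θ'.1 x = θ.1 x := by
    rintro j ⟨θ, hθ⟩
    obtain ⟨θ', h1, h2⟩ := next_good hdpos (hn j) (hker (j + 1)) hm hθ
    exact ⟨⟨θ', h1⟩, h2⟩
  choose nx hnx using hstep
  let Θ : ∀ j, {θ : FreeGroup ℕ → Multiplicative (ZMod d) // Good (L j) m θ} := fun j =>
    Nat.rec (motive := fun j => {θ : FreeGroup ℕ → Multiplicative (ZMod d) // Good (L j) m θ})
      ⟨fun _ => 1, hbase⟩ (fun j θ => nx j θ) j
  have hΘ : ∀ j, ∀ x ∈ (L j).π.ker, (Θ (j + 1)).1 x = (Θ j).1 x := fun j => hnx j (Θ j)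
  have hmono : ∀ i j, i ≤ j → ∀ x ∈ (L i).π.ker, (Θ j).1 x = (Θ i).1 x := by
    intro i j hij
    induction hij with
    | refl => intro x _; rfl
    | step hij ih =>
      intro x hx
      rw [← ih x hx]
      exact hΘ _ x (T6_ker_mono hn hij hx)
  classical
  have hexh : ∀ g ∈ Fd d, ∃ j, g ∈ (L j).π.ker := fun g hg => tower_exh h0D hn hg
  let θ : FreeGroup ℕ → ZMod d := fun x =>
    if h : ∃ j, x ∈ (L j).π.ker then Multiplicative.toAdd ((Θ (Nat.find h)).1 x) else 0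
  have hθ : ∀ j, ∀ x ∈ (L j).π.ker, θ x = Multiplicative.toAdd ((Θ j).1 x) := by
    intro j x hx
    have h : ∃ j, x ∈ (L j).π.ker := ⟨j, hx⟩
    show (if h : ∃ j, x ∈ (L j).π.ker then Multiplicative.toAdd ((Θ (Nat.find h)).1 x) else 0) = _
    rw [dif_pos h, hmono _ j (Nat.find_min' h hx) x (Nat.find_spec h)]
  refine ⟨θ, ?_, ?_, ?_⟩
  · intro x hx y hy
    obtain ⟨i, hi⟩ := hexh x hx
    obtain ⟨j, hj⟩ := hexh y hy
    have hi' := T6_ker_mono hn (le_max_left i j) hi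
    have hj' := T6_ker_mono hn (le_max_right i j) hj
    rw [hθ _ _ hi', hθ _ _ hj', hθ _ _ (mul_mem hi' hj'), (Θ (max i j)).2.mul x hi' y hj']
    rfl
  · intro f x hx
    obtain ⟨i, hi⟩ := hexh x hx
    have h1 : f * x * f⁻¹ ∈ (L i).π.ker := (inferInstance : (L i).π.ker.Normal).conj_mem x hi f
    rw [hθ _ _ hi, hθ _ _ h1, (Θ i).2.conj f x hi]
  · intro x
    obtain ⟨i, hi⟩ := hexh (x ^ d) (Subgroup.subset_closure ⟨x, rfl⟩)
    rw [hθ _ _ hi, (Θ i).2.val x hi]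
    rfl

/-- the independence theorem -/
theorem ind_main : ∃ d₀ : ℕ, ∀ d ≥ d₀, d.Prime → Ind d := by
  obtain ⟨d₀, hd₀⟩ := exists_nat_ge (10000 * ck0 / ctau)
  refine ⟨d₀ + 3, fun d hd hp => ?_⟩
  have hodd : Odd d := hp.odd_of_ne_two (by omega)
  refine ind_of_odd hodd ?_
  rw [div_le_iff₀ ctau_pos] at hd₀
  refine hd₀.trans (mul_le_mul_of_nonneg_right ?_ ctau_pos.le)
  exact_mod_cast (by omega : d₀ ≤ d)

end Pool.Agent.helper42.PV
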