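import Pool.Agent.helper50.BW.S7
/-! ## PV-I1 peak reduction with values (MP_c0bc55_al, S02951; plan wp4_2)
RedV: as Red, but every step also multiplies an element of a second group E from the left, where rho : E to G is a
homomorphism and v c in E lies over gen c to the power d, equivariantly.  peakV: copy of peak (S7).
inj_of_red: the group generated by all v c maps injectively to G. -/
namespace Pool.Agent.helper42.PV
open Sum Pool.Agent.helper50.BW
variable {G : Type} [Group G] {D : G → G → ℝ} {C : Type} [MulAction G C] {K Δ τ T : ℝ}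
  {S : CSys D C K Δ τ T} {κ₁ κu : ℝ} {U : C → G ⊕ C → ℝ} {d : ℕ}

/-- reductions with values in a second group -/
inductive RedV (S : CSys D C K Δ τ T) (U : C → G ⊕ C → ℝ) (d : ℕ) (κ₂ : ℝ) (o : G) {E : Type} [Group E]
    (v : C → E) : G → E → Prop
  | one : RedV S U d κ₂ o v 1 1
  | step (c : C) (e : ℤ) (n : G) (N : E) : (e = 1 ∨ e = -1) → RedV S U d κ₂ o v n N →
      d * S.ell c - κ₂ ≤ e * (U c (inl (S.gen c ^ (e * d) * n * o)) - U c (inl o)) →
      RedV S U d κ₂ o v (S.gen c ^ (e * d) * n) (v c ^ e * N)

theorem peakV {E : Type} [Group E] (ρ : E →* G) (v : C → E) (hv : ∀ c, ρ (v c) = S.gen c ^ d)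
    (hve : ∀ (w : E) (c : C), v (ρ w • c) = w * v c * w⁻¹) (h : Hyp D) (hi : LInv D) (hP : Proj S κ₁ κu U) (hK : 0 ≤ K) (hu : 0 ≤ κu) (h1 : 0 ≤ κ₁)
    (hbig : 20 * κ₁ + 40 * κu + 60 * K + 1 ≤ d * τ) (o : G) (k : ℕ) :
    ∀ (n : G) (N : E) (a : C) (e : ℤ), (e = 1 ∨ e = -1) → RedV S U d (2 * κ₁) o v n N →
      D o (n * o) ≤ k * (d * τ - 4 * κ₁ - 4 * κu - 2 * K) →
      D o (S.gen a ^ (e * d) * n * o) ≤ k * (d * τ - 4 * κ₁ - 4 * κu - 2 * K) →
      RedV S U d (2 * κ₁) o v (S.gen a ^ (e * d) * n) (v a ^ e * N) := by
  have hρ : ∀ (c : C) (e : ℤ), ρ (v c ^ e) = S.gen c ^ (e * (d : ℤ)) := by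
    intro c e
    rw [map_zpow, hv, ← zpow_natCast, ← zpow_mul, mul_comm]
  have hΘ : ∀ c : C, (d : ℝ) * τ ≤ d * S.ell c := fun c =>
    mul_le_mul_of_nonneg_left (S.ell_ge c) (Nat.cast_nonneg d)
  set η : ℝ := d * τ - 4 * κ₁ - 4 * κu - 2 * K with hη
  have hηpos : 0 < η := by rw [hη]; linarith
  -- the rotation of points
  have hrot : ∀ (a : C) (e : ℤ) (x : G),
      U a (inl (S.gen a ^ (e * d) * x)) = U a (inl x) + e * (d * S.ell a) := by
    intro a e x
    have := hP.rot a (inl x) (e * d) (by simp)
    rw [Sum.smul_inl, smul_eq_mul] at this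
    rw [this]
    push_cast
    ring
  -- the height estimate
  have hhf : ∀ (c : C) (e : ℤ) (x : G), (e = 1 ∨ e = -1) →
      d * S.ell c - 2 * κ₁ ≤ e * (U c (inl x) - U c (inl o)) →
      D o (S.gen c ^ (-(e * d)) * x) ≤ D o x - η := by
    intro c e x he ht
    have h2 := hP.hf h hK hu (κ₂ := 2 * κ₁) (by linarith) he
      (by linarith [hΘ c]) ht
    have := hΘ c
    rw [hη]
    linarith
  induction k with
  | zero =>
    intro n N a e he hR hx hgx
    simp only [Nat.cast_zero, zero_mul] at hx
    set p : ℝ := e * (U a (inl (n * o)) - U a (inl o)) with hp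
    rcases hR with _ | ⟨c, e', n', N', he', hR', hst⟩
    · -- n = 1
      refine RedV.step a e 1 1 he RedV.one ?_
      have h2 := hrot a e o
      rw [mul_one, h2]
      have := S7_sq he
      have h3 : (e : ℝ) * (U a (inl o) + e * (d * S.ell a) - U a (inl o)) = (e * e) * (d * S.ell a) := by
        ring
      rw [h3, this]
      linarith
    · exfalso
      have h2 := hhf c e' _ he' hst
      have h3 : S.gen c ^ (-(e' * (d : ℤ))) * (S.gen c ^ (e' * (d : ℤ)) * n' * o) = n' * o := by
        group
      rw [h3] at h2
      have h4 := h.nonneg o (n' * o)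
      linarith
  | succ k ih =>
    intro n N a e he hR hx hgx
    have hk : (((k + 1 : ℕ) : ℝ)) * η = k * η + η := by push_cast; ring
    rw [hk] at hx hgx
    have hsq := S7_sq he
    have hcaseA : -(2 * κ₁) ≤ e * (U a (inl (n * o)) - U a (inl o)) →
        RedV S U d (2 * κ₁) o v (S.gen a ^ (e * d) * n) (v a ^ e * N) := by
      intro hA
      refine RedV.step a e n N he hR ?_
      rw [mul_assoc, hrot a e (n * o)]
      have h3 : (e : ℝ) * (U a (inl (n * o)) + e * (d * S.ell a) - U a (inl o)) =
          e * (U a (inl (n * o)) - U a (inl o)) + (e * e) * (d * S.ell a) := by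
        ring
      rw [h3, hsq]
      linarith
    by_cases hA : -(2 * κ₁) ≤ e * (U a (inl (n * o)) - U a (inl o))
    · exact hcaseA hA
    push Not at hA
    rcases hR with _ | ⟨c, e', n', N', he', hR', hst⟩
    · exfalso
      rw [one_mul, sub_self, mul_zero] at hA
      linarith
    -- n = gen c ^ (e' d) * n'
    set g : G := S.gen a ^ (e * (d : ℤ)) with hg
    set m : G := S.gen c ^ (e' * (d : ℤ)) with hm
    set x : G := m * n' * o with hxdef
    have hminv : S.gen c ^ (-(e' * (d : ℤ))) = m⁻¹ := by rw [hm, zpow_neg]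
    have hy : m⁻¹ * x = n' * o := by rw [hxdef]; group
    have hDy : D o (n' * o) ≤ D o x - η := by
      have := hhf c e' x he' hst
      rwa [hminv, hy] at this
    have hgx' : D o (g * x) ≤ k * η + η := by
      have e1 : g * (m * n') * o = g * x := by rw [hxdef]; group
      rwa [e1] at hgx
    by_cases hca : c = a
    · subst hca
      have hee : e' = -e ∨ e' = e := by
        rcases he with rfl | rfl <;> rcases he' with rfl | rfl <;> simp
      rcases hee with rfl | rfl
      · have e1 : g * (m * n') = n' := by
          rw [hg, hm, ← mul_assoc, ← zpow_add]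
          have : e * (d : ℤ) + -e * (d : ℤ) = 0 := by ring
          rw [this, zpow_zero, one_mul]
        have e2 : v c ^ e * (v c ^ (-e) * N') = N' := by
          rw [← mul_assoc, ← zpow_add, add_neg_cancel, zpow_zero, one_mul]
        rw [e1, e2]
        exact hR'
      · exfalso
        have := hΘ c
        linarith
    -- c ≠ a
    have hac : a ≠ c := fun hh => hca hh.symm
    have hsq' := S7_sq he'
    have habs : 2 * κ₁ ≤ |U a (inl x) - U a (inl o)| := by
      rw [← S6_abs he]
      rw [abs_of_neg (by linarith)]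
      linarith
    have habs' : 2 * κ₁ ≤ |U c (inl x) - U c (inl o)| := by
      rw [← S6_abs he']
      have := hΘ c
      refine le_trans ?_ (le_abs_self _)
      linarith
    have hgm : g * (m * n') = (g * m * g⁻¹) * (g * n') := by group
    rcases hP.dich h1 hac (X := inl o) (Y := inl x) (by simp) (by simp) (by simp) (by simp) habs habs' with
      ⟨hI1, hI2⟩ | ⟨hII1, hII2⟩
    · -- case I
      set c' : C := g • c with hc'
      have hgena : g • a = a := S.gen_zpow_smul a (e * d)
      have hac' : a ≠ c' := by
        intro hh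
        rw [hc'] at hh
        have : g • a = g • c := hgena.trans hh
        exact hac (smul_left_cancel g this)
      have hgc' : S.gen c' ^ (e' * (d : ℤ)) = g * m * g⁻¹ := S.gen_zpow_conj g c (e' * d)
      have hellc' : S.ell c' = S.ell c := S.ell_smul g c
      have hgn : g * (m * n') = S.gen c' ^ (e' * (d : ℤ)) * (g * n') := by rw [hgc']; group
      have hvc' : v a ^ e * (v c ^ e' * N') = v c' ^ e' * (v a ^ e * N') := by
        have h9 := hve (v a ^ e) c
        rw [hρ a e, ← hg, ← hc'] at h9
        rw [h9, conj_zpow]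
        group
      by_cases hB : -(d * S.ell a - 2 * κ₁) < e * (U a (inl x) - U a (inl o))
      · -- I-B2
        have hUac' : U a (inr c') = U a (inr c) + e * (d * S.ell a) := by
          have := hP.rot a (inr c) (e * d) (by
            intro hh
            exact hac (Sum.inr_injective hh).symm)
          rw [Sum.smul_inr] at this
          rw [hc', hg, this]
          push_cast
          ring
        have hex : U c' (inl o) = U c' (inr a) := by
          apply hP.exact a c' (inl o) hac' (by simp) (by simp)
          rw [hUac', ← hI1, abs_sub_comm, ← S6_abs he]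
          have e1 : (e : ℝ) * (U a (inl x) + e * (d * S.ell a) - U a (inl o)) =
              e * (U a (inl x) - U a (inl o)) + (e * e) * (d * S.ell a) := by ring
          rw [e1, hsq]
          refine le_trans ?_ (le_abs_self _)
          linarith
        have hsm := hP.smul g c (inr a) (inl x) (by
          intro hh
          exact hac (Sum.inr_injective hh)) (by simp)
        rw [Sum.smul_inl, Sum.smul_inr, smul_eq_mul, hgena, ← hc'] at hsm
        have hdiff : U c' (inl (g * x)) - U c' (inl o) = U c (inl x) - U c (inl o) := by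
          rw [hex, hI2]
          exact hsm
        have ht' : d * S.ell c' - 2 * κ₁ ≤ e' * (U c' (inl (g * x)) - U c' (inl o)) := by
          rw [hdiff, hellc']
          exact hst
        have hDgy : D o (g * (n' * o)) ≤ D o (g * x) - η := by
          have h5 := hhf c' e' (g * x) he' ht'
          have e1 : S.gen c' ^ (-(e' * (d : ℤ))) * (g * x) = g * (n' * o) := by
            rw [zpow_neg, hgc', hxdef]
            group
          rwa [e1] at h5
        have hRg : RedV S U d (2 * κ₁) o v (g * n') (v a ^ e * N') := by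
          apply ih n' N' a e he hR' (by linarith)
          rw [← hg, mul_assoc]
          linarith
        rw [hgn, hvc']
        refine RedV.step c' e' (g * n') _ he' hRg ?_
        have e1 : S.gen c' ^ (e' * (d : ℤ)) * (g * n') * o = g * x := by
          rw [hgc', hxdef]; group
        rw [e1]
        exact ht'
      · -- I-B1
        push Not at hB
        have hDgx : D o (g * x) ≤ D o x - η := by
          have he1 : -e = 1 ∨ -e = -1 := by
            rcases he with rfl | rfl <;> simp
          have h5 := hhf a (-e) x he1 (by push_cast; linarith)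
          have e1 : -(-e * (d : ℤ)) = e * d := by ring
          rwa [e1, ← hg] at h5
        have hDgy : D o (g * (n' * o)) ≤ D o x - η := by
          have h5 := hP.de1 h hi hK hu (κ₂ := 2 * κ₁) (by linarith) (d := d) hac he he'
            (by linarith [hΘ a]) (by linarith [hΘ c]) hB hst hI1 hI2
          rw [← hg, hminv, hy] at h5
          have := hΘ a
          have := hΘ c
          linarith
        have hRg : RedV S U d (2 * κ₁) o v (g * n') (v a ^ e * N') := by
          apply ih n' N' a e he hR' (by linarith)
          rw [← hg, mul_assoc]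
          linarith
        rw [hgn, hvc']
        apply ih (g * n') _ c' e' he' hRg
        · rw [mul_assoc]
          linarith
        · have e1 : S.gen c' ^ (e' * (d : ℤ)) * (g * n') * o = g * x := by
            rw [hgc', hxdef]; group
          rw [e1]
          linarith
    · -- case II
      set a'' : C := m⁻¹ • a with ha''
      have hga'' : S.gen a'' ^ (e * (d : ℤ)) = m⁻¹ * g * m := by
        have := S.gen_zpow_conj m⁻¹ a (e * d)
        rw [inv_inv] at this
        rw [ha'', this, hg]
      have hhgn : S.gen a'' ^ (e * (d : ℤ)) * n' = m⁻¹ * (g * (m * n')) := by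
        rw [hga'']; group
      have hva'' : v a ^ e * (v c ^ e' * N') = v c ^ e' * (v a'' ^ e * N') := by
        have h9 := hve (v c ^ (-e')) a
        have h10 : ρ (v c ^ (-e')) = m⁻¹ := by rw [zpow_neg, map_inv, hρ, ← hm]
        rw [h10, ← ha''] at h9
        rw [h9, conj_zpow]
        group
      have hgoal : g * (m * n') = m * (m⁻¹ * (g * (m * n'))) := by group
      have hmx : m * (m⁻¹ * (g * (m * n'))) * o = g * x := by rw [hxdef]; group
      have hmx2 : m⁻¹ * (g * (m * n')) * o = m⁻¹ * (g * x) := by rw [hxdef]; group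
      by_cases hB : -(d * S.ell a - 2 * κ₁) < e * (U a (inl x) - U a (inl o))
      · -- II-B2
        have hex : U c (inl (g * x)) = U c (inr a) := by
          apply hP.exact a c (inl (g * x)) hac (by simp) (by simp)
          rw [hg, hrot a e x, ← hII2, ← S6_abs he]
          have e1 : (e : ℝ) * (U a (inl x) + e * (d * S.ell a) - U a (inl o)) =
              e * (U a (inl x) - U a (inl o)) + (e * e) * (d * S.ell a) := by ring
          rw [e1, hsq]
          refine le_trans ?_ (le_abs_self _)
          linarith
        have ht' : d * S.ell c - 2 * κ₁ ≤ e' * (U c (inl (g * x)) - U c (inl o)) := by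
          rw [hex, ← hII1]
          exact hst
        have hDhgx : D o (m⁻¹ * (g * x)) ≤ D o (g * x) - η := by
          have h5 := hhf c e' (g * x) he' ht'
          rwa [hminv] at h5
        have hRh : RedV S U d (2 * κ₁) o v (m⁻¹ * (g * (m * n'))) (v a'' ^ e * N') := by
          rw [← hhgn]
          apply ih n' N' a'' e he hR' (by linarith)
          rw [hhgn, hmx2]
          linarith
        rw [hgoal, hva'']
        refine RedV.step c e' _ _ he' hRh ?_
        rw [← hm, hmx]
        exact ht'
      · -- II-B1
        push Not at hB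
        have hDgx : D o (g * x) ≤ D o x - η := by
          have he1 : -e = 1 ∨ -e = -1 := by
            rcases he with rfl | rfl <;> simp
          have h5 := hhf a (-e) x he1 (by push_cast; linarith)
          have e1 : -(-e * (d : ℤ)) = e * d := by ring
          rwa [e1, ← hg] at h5
        have hDhgx : D o (m⁻¹ * (g * x)) ≤ D o x - η := by
          have h5 := hP.de2 h hi hK hu (κ₂ := 2 * κ₁) (by linarith) (d := d) hac he he'
            (by linarith [hΘ a]) (by linarith [hΘ c]) hB hst hII1 hII2
          rw [← hg, hminv] at h5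
          have := hΘ a
          have := hΘ c
          linarith
        have hRh : RedV S U d (2 * κ₁) o v (m⁻¹ * (g * (m * n'))) (v a'' ^ e * N') := by
          rw [← hhgn]
          apply ih n' N' a'' e he hR' (by linarith)
          rw [hhgn, hmx2]
          linarith
        rw [hgoal, hva'']
        apply ih _ _ c e' he' hRh
        · rw [hmx2]
          linarith
        · rw [← hm, hmx]
          linarith

theorem greendlingerV {E : Type} [Group E] (ρ : E →* G) (v : C → E) (hv : ∀ c, ρ (v c) = S.gen c ^ d)
    (hve : ∀ (w : E) (c : C), v (ρ w • c) = w * v c * w⁻¹) (h : Hyp D) (hi : LInv D) (hP : Proj S κ₁ κu U)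
    (hK : 0 ≤ K) (hu : 0 ≤ κu) (h1 : 0 ≤ κ₁) (hbig : 20 * κ₁ + 40 * κu + 60 * K + 1 ≤ d * τ) (o : G)
    {N : E} (hN : N ∈ Subgroup.closure (Set.range v)) : RedV S U d (2 * κ₁) o v (ρ N) N := by
  have hηpos : 0 < d * τ - 4 * κ₁ - 4 * κu - 2 * K := by linarith
  have key : ∀ (n : G) (N : E) (a : C) (e : ℤ), (e = 1 ∨ e = -1) → RedV S U d (2 * κ₁) o v n N →
      RedV S U d (2 * κ₁) o v (S.gen a ^ (e * d) * n) (v a ^ e * N) := by
    intro n N a e he hR
    obtain ⟨k, hk⟩ := exists_nat_ge
      (max (D o (n * o)) (D o (S.gen a ^ (e * d) * n * o)) / (d * τ - 4 * κ₁ - 4 * κu - 2 * K))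
    rw [div_le_iff₀ hηpos] at hk
    exact peakV ρ v hv hve h hi hP hK hu h1 hbig o k n N a e he hR ((le_max_left _ _).trans hk)
      ((le_max_right _ _).trans hk)
  induction hN using Subgroup.closure_induction_left with
  | one => rw [map_one]; exact RedV.one
  | mul_left x hx y hy ihy =>
    obtain ⟨c, rfl⟩ := hx
    have := key (ρ y) y c 1 (Or.inl rfl) ihy
    rwa [one_mul, zpow_natCast, zpow_one, ← hv, ← map_mul] at this
  | inv_mul_cancel x hx y hy ihy =>
    obtain ⟨c, rfl⟩ := hx
    have := key (ρ y) y c (-1) (Or.inr rfl) ihy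
    rwa [neg_one_mul, zpow_neg, zpow_natCast, zpow_neg_one, ← hv, ← map_inv, ← map_mul] at this

theorem inj_of_red {E : Type} [Group E] (ρ : E →* G) (v : C → E) (hv : ∀ c, ρ (v c) = S.gen c ^ d)
    (hve : ∀ (w : E) (c : C), v (ρ w • c) = w * v c * w⁻¹) (h : Hyp D) (hi : LInv D) (hP : Proj S κ₁ κu U)
    (hK : 0 ≤ K) (hu : 0 ≤ κu) (h1 : 0 ≤ κ₁) (hbig : 20 * κ₁ + 40 * κu + 60 * K + 1 ≤ d * τ)
    {N : E} (hN : N ∈ Subgroup.closure (Set.range v)) (hN1 : ρ N = 1) : N = 1 := by
  have hR := greendlingerV ρ v hv hve h hi hP hK hu h1 hbig (1 : G) hN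
  rw [hN1] at hR
  generalize hg : (1 : G) = g at hR
  rcases hR with _ | ⟨c, e, n, N', he, hR', hst⟩
  · rfl
  · exfalso
    rw [← hg] at hst
    rw [mul_one, sub_self, mul_zero] at hst
    have h2 : (d : ℝ) * τ ≤ d * S.ell c := mul_le_mul_of_nonneg_left (S.ell_ge c) (Nat.cast_nonneg d)
    linarith

end Pool.Agent.helper42.PV
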